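import Pool.Agent.Y203.QTZ5

set_option autoImplicit false

/-! Project QT, multiquadratic fields, task MQ4 (helper914): changing the equation of a twist by a
square. -/

namespace Pool.Agent.Y914.QMQ4

open Pool.Agent.Y19.QT Complex Pool.Agent.Y705.QT Pool.Agent.Y203.QTZ5

theorem card_scale (a b k : ℤ) {p : ℕ} [Fact p.Prime] (hk : (k : ZMod p) ≠ 0) :
    Nat.card {q : ZMod p × ZMod p // q.2 ^ 2 = q.1 ^ 3 + ((a * k ^ 4 : ℤ) : ZMod p) * q.1 +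
      ((b * k ^ 6 : ℤ) : ZMod p)} =
    Nat.card {q : ZMod p × ZMod p // q.2 ^ 2 = q.1 ^ 3 + (a : ZMod p) * q.1 + (b : ZMod p)} := by
  symm
  refine Nat.card_congr
    { toFun := fun q => ⟨((k : ZMod p) ^ 2 * q.1.1, (k : ZMod p) ^ 3 * q.1.2), ?_⟩
      invFun := fun q => ⟨(((k : ZMod p) ^ 2)⁻¹ * q.1.1, ((k : ZMod p) ^ 3)⁻¹ * q.1.2), ?_⟩
      left_inv := ?_
      right_inv := ?_ }
  · have h := q.2
    push_cast
    calc ((k : ZMod p) ^ 3 * q.1.2) ^ 2 = (k : ZMod p) ^ 6 * q.1.2 ^ 2 := by ring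
      _ = (k : ZMod p) ^ 6 * (q.1.1 ^ 3 + (a : ZMod p) * q.1.1 + (b : ZMod p)) := by rw [h]
      _ = _ := by ring
  · have h := q.2
    push_cast at h
    have e1 : (((k : ZMod p) ^ 3)⁻¹ * q.1.2) ^ 2 = ((k : ZMod p) ^ 6)⁻¹ * q.1.2 ^ 2 := by
      field_simp
    show (((k : ZMod p) ^ 3)⁻¹ * q.1.2) ^ 2 = (((k : ZMod p) ^ 2)⁻¹ * q.1.1) ^ 3 +
      (a : ZMod p) * (((k : ZMod p) ^ 2)⁻¹ * q.1.1) + (b : ZMod p)
    rw [e1, h]
    field_simp
  · intro q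
    apply Subtype.ext
    apply Prod.ext
    · show ((k : ZMod p) ^ 2)⁻¹ * ((k : ZMod p) ^ 2 * q.1.1) = q.1.1
      field_simp
    · show ((k : ZMod p) ^ 3)⁻¹ * ((k : ZMod p) ^ 3 * q.1.2) = q.1.2
      field_simp
  · intro q
    apply Subtype.ext
    apply Prod.ext
    · show (k : ZMod p) ^ 2 * (((k : ZMod p) ^ 2)⁻¹ * q.1.1) = q.1.1
      field_simp
    · show (k : ZMod p) ^ 3 * (((k : ZMod p) ^ 3)⁻¹ * q.1.2) = q.1.2
      field_simp

/-- changing the equation of a twist by a square -/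
theorem MQ4 (a b : ℤ) (hab : 4 * a ^ 3 + 27 * b ^ 2 ≠ 0) (s k : ℤ) (hs : s ≠ 0) (hk : k ≠ 0)
    (F : ℂ → ℂ) (hF : IsLFun (a * s ^ 2) (b * s ^ 3) F) :
    ∃ G : ℂ → ℂ, IsLFun (a * (s * k ^ 2) ^ 2) (b * (s * k ^ 2) ^ 3) G ∧
      ∀ z : ℂ, 1 / 2 < z.re → analyticOrderAt G z = analyticOrderAt F z := by
  have _ := hab
  have _ := hs
  classical
  obtain ⟨hFd, hFp⟩ := hF
  obtain ⟨a1, ha1⟩ : ∃ a1 : ℤ, a1 = a * s ^ 2 := ⟨_, rfl⟩
  obtain ⟨b1, hb1⟩ : ∃ b1 : ℤ, b1 = b * s ^ 3 := ⟨_, rfl⟩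
  have ha2 : a * (s * k ^ 2) ^ 2 = a1 * k ^ 4 := by rw [ha1]; ring
  have hb2 : b * (s * k ^ 2) ^ 3 = b1 * k ^ 6 := by rw [hb1]; ring
  rw [ha2, hb2]
  rw [← ha1, ← hb1] at hFp
  obtain ⟨D1, hD1⟩ : ∃ D1 : ℤ, D1 = 2 * (-4 * a1 ^ 3 - 27 * b1 ^ 2) := ⟨_, rfl⟩
  have hD2 : 2 * (-4 * (a1 * k ^ 4) ^ 3 - 27 * (b1 * k ^ 6) ^ 2) = D1 * k ^ 12 := by
    rw [hD1]; ring
  have hp2 : ∀ p : ℕ, ¬ (p : ℤ) ∣ D1 → p ≠ 2 := by
    rintro p h rfl
    apply h
    rw [hD1]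
    exact dvd_mul_right _ _
  set S : Finset ℕ := k.natAbs.primeFactors.filter (fun p => ¬ (p : ℤ) ∣ D1) with hS
  have hSp : ∀ q ∈ S, q.Prime := fun q hq =>
    Nat.prime_of_mem_primeFactors (Finset.mem_filter.mp hq).1
  have hSk : ∀ q ∈ S, (q : ℤ) ∣ k := fun q hq =>
    Int.natCast_dvd.2 (Nat.dvd_of_mem_primeFactors (Finset.mem_filter.mp hq).1)
  have hSD : ∀ q ∈ S, ¬ (q : ℤ) ∣ D1 := fun q hq => (Finset.mem_filter.mp hq).2
  have hdP : Differentiable ℂ (fun z => ∏ p ∈ S, pf a1 b1 z p) := by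
    apply Differentiable.fun_finsetProd
    intro p hp
    exact pf_diff a1 b1 (hSp p hp)
  have hne : ∀ p ∈ S, ∀ z : ℂ, 1 / 2 < z.re → pf a1 b1 z p ≠ 0 := fun p hp z hz =>
    pf_ne a1 b1 (hSp p hp) (hp2 p (hSD p hp)) z hz
  refine ⟨fun z => F z * ∏ p ∈ S, pf a1 b1 z p, ⟨hFd.mul hdP, ?_⟩, ?_⟩
  · intro z hz
    have h1 := hFp z hz
    have h3 : HasProd (fun p => if p ∈ S then pf a1 b1 z p else 1) (∏ p ∈ S, pf a1 b1 z p) := by
      have h4 : HasProd (fun p => if p ∈ S then pf a1 b1 z p else 1)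
          (∏ p ∈ S, if p ∈ S then pf a1 b1 z p else 1) :=
        hasProd_prod_of_ne_finset_one (fun p hp => if_neg hp)
      rwa [Finset.prod_congr rfl fun p hp => if_pos hp] at h4
    have h4 := h1.mul h3
    have hpf : ∀ (a b : ℤ) (p : ℕ), (1 - ((p : ℂ) - (Nat.card {q : ZMod p × ZMod p //
            q.2 ^ 2 = q.1 ^ 3 + (a : ZMod p) * q.1 + (b : ZMod p)} : ℂ))
            * (p : ℂ) ^ (-z) + (p : ℂ) ^ (1 - 2 * z))⁻¹ = (pf a b z p)⁻¹ := by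
      intro a b p
      unfold pf ap
      push_cast
      rfl
    simp only [hpf] at h4 ⊢
    rw [← hD1] at h4
    rw [hD2]
    have hfun : (fun p : ℕ => if p.Prime ∧ ¬ ((p : ℤ) ∣ D1 * k ^ 12) then
        (pf (a1 * k ^ 4) (b1 * k ^ 6) z p)⁻¹ else 1) =
        fun p : ℕ => (if p.Prime ∧ ¬ ((p : ℤ) ∣ D1) then (pf a1 b1 z p)⁻¹ else 1) *
          (if p ∈ S then pf a1 b1 z p else 1) := by
      funext p
      by_cases hp : p.Prime
      swap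
      · rw [if_neg (by tauto), if_neg (by tauto), if_neg (fun h => hp (hSp p h)), mul_one]
      have hpi : Prime (p : ℤ) := Nat.prime_iff_prime_int.mp hp
      by_cases hD : (p : ℤ) ∣ D1
      · rw [if_neg (fun h => h.2 (hD.mul_right _)), if_neg (fun h => h.2 hD),
          if_neg (fun h => hSD p h hD), mul_one]
      by_cases hpk : (p : ℤ) ∣ k
      · have hpS : p ∈ S := by
          rw [hS, Finset.mem_filter, Nat.mem_primeFactors]
          exact ⟨⟨hp, Int.natCast_dvd.1 hpk, Int.natAbs_ne_zero.2 hk⟩, hD⟩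
        rw [if_neg (fun h => h.2 ((dvd_pow hpk (by norm_num)).mul_left _)), if_pos ⟨hp, hD⟩,
          if_pos hpS, inv_mul_cancel₀ (hne p hpS z (by linarith))]
      · have hpS : p ∉ S := fun h => hpk (hSk p h)
        have hD' : ¬ (p : ℤ) ∣ D1 * k ^ 12 := by
          intro h
          rcases hpi.dvd_or_dvd h with h | h
          · exact hD h
          · exact hpk (hpi.dvd_of_dvd_pow h)
        rw [if_pos ⟨hp, hD'⟩, if_pos ⟨hp, hD⟩, if_neg hpS, mul_one]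
        have : Fact p.Prime := ⟨hp⟩
        have hk0 : (k : ZMod p) ≠ 0 := by
          rwa [Ne, ZMod.intCast_zmod_eq_zero_iff_dvd]
        have e : ap (a1 * k ^ 4) (b1 * k ^ 6) p = ap a1 b1 p := by
          unfold ap
          rw [card_scale a1 b1 k hk0]
        unfold pf
        rw [e]
    rw [hfun]
    exact h4
  · intro z hz
    have hA1 : AnalyticAt ℂ F z := hFd.analyticAt z
    have hA2 : AnalyticAt ℂ (fun z => ∏ p ∈ S, pf a1 b1 z p) z := hdP.analyticAt z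
    have h1 : analyticOrderAt (fun z => F z * ∏ p ∈ S, pf a1 b1 z p) z =
        analyticOrderAt F z + analyticOrderAt (fun z => ∏ p ∈ S, pf a1 b1 z p) z :=
      analyticOrderAt_mul hA1 hA2
    have h2 : analyticOrderAt (fun z => ∏ p ∈ S, pf a1 b1 z p) z = 0 := by
      rw [hA2.analyticOrderAt_eq_zero, Finset.prod_ne_zero_iff]
      exact fun p hp => hne p hp z hz
    rw [h1, h2, add_zero]

end Pool.Agent.Y914.QMQ4
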